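import Mathlib
import Pool.Agent.H71R3.TF2

set_option autoImplicit false

open MeasureTheory Set Filter Topology
open scoped RealInnerProductSpace

namespace Pool.Agent.Results.MP_0ec64f_mp.DilationPressure

/-- Physical space. -/
abbrev E3 := EuclideanSpace ℝ (Fin 3)

/-- Admissible densities: measurable, nonnegative, integrable, with integrable `5/3`-power. -/
def Adm (ρ : E3 → ℝ) : Prop :=
  Measurable ρ ∧ (∀ x, 0 ≤ ρ x) ∧ Integrable ρ ∧ Integrable (fun x => ρ x ^ (5/3 : ℝ))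

/-- The Thomas-Fermi functional `ξ(ρ)` for nuclear charges `z` at positions `R`. -/
noncomputable def xi {k : ℕ} (z : Fin k → ℝ) (R : Fin k → E3) (ρ : E3 → ℝ) : ℝ :=
  3/5 * (∫ x, ρ x ^ (5/3 : ℝ)) - (∫ x, (∑ j, z j / ‖x - R j‖) * ρ x)
    + 1/2 * (∫ x, ∫ y, ρ x * ρ y / ‖x - y‖)
    + ∑ i, ∑ j ∈ Finset.Ioi i, z i * z j / ‖R i - R j‖

/-- The values of `ξ` on admissible densities of mass `lam`. -/
def energies {k : ℕ} (z : Fin k → ℝ) (R : Fin k → E3) (lam : ℝ) : Set ℝ :=
  {E | ∃ ρ, Adm ρ ∧ ∫ x, ρ x = lam ∧ xi z R ρ = E}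

/-- Deformation (i): one-direction dilation `(x¹, x², x³) ↦ (l x¹, x², x³)`. -/
def dil (l : ℝ) (x : E3) : E3 := WithLp.toLp 2 ![l * x 0, x 1, x 2]

/-- The Thomas-Fermi energy `e(lam, l)` of the configuration dilated by `l` in the first
direction. -/
noncomputable def e {k : ℕ} (z : Fin k → ℝ) (R : Fin k → E3) (lam l : ℝ) : ℝ :=
  sInf (energies z (fun i => dil l (R i)) lam)

/-- **Q1: the pressure of deformation (i) is nonnegative.** For all `k`, all charges `z ≥ 0`, all
distinct positions and every `lam ≥ 0`: the infimum defining `e` is over a nonempty set bounded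
below, `e(lam, ·)` is nonincreasing on `(0, ∞)`, and `P = -∂e/∂l ≥ 0` at every `l > 0` at which the
derivative exists. -/
theorem result {k : ℕ} (z : Fin k → ℝ) (hz : ∀ i, 0 ≤ z i) (R : Fin k → E3)
    (hR : Function.Injective R) (lam : ℝ) (hlam : 0 ≤ lam) :
    (∀ l : ℝ, (energies z (fun i => dil l (R i)) lam).Nonempty ∧
      BddBelow (energies z (fun i => dil l (R i)) lam)) ∧
    AntitoneOn (e z R lam) (Ioi 0) ∧
    ∀ l : ℝ, 0 < l → ∀ d : ℝ, HasDerivAt (e z R lam) d l → 0 ≤ -d := by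
  have hanti : AntitoneOn (e z R lam) (Ioi 0) := by
    intro a ha b _ hab
    exact Pool.Agent.H71R3.TF1.en_dil z hz R hR lam hlam a b ha hab
  refine ⟨fun l => ⟨?_, ?_⟩, hanti, ?_⟩
  · exact Pool.Agent.Helper557.TFP.en_nonempty z (fun i => dil l (R i)) lam hlam
  · exact Pool.Agent.Helper557.TFP.en_bdd z hz (fun i => dil l (R i)) lam
  · intro l hl d hd
    have hacc : AccPt l (𝓟 (Ioi (0:ℝ))) := by
      have : Ioi (0:ℝ) ∈ 𝓝 l := Ioi_mem_nhds hl
      rw [accPt_iff_frequently_nhdsNE]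
      apply Filter.Eventually.frequently
      exact eventually_nhdsWithin_of_eventually_nhds this
    have := (hd.hasDerivWithinAt (s := Ioi (0:ℝ))).nonpos_of_antitoneOn hacc hanti
    linarith

end Pool.Agent.Results.MP_0ec64f_mp.DilationPressure
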