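import Mathlib
import Pool.Agent.H71R3.TF2

set_option autoImplicit false

open MeasureTheory Set Filter Topology
open scoped RealInnerProductSpace

namespace Pool.Agent.Results.MP_0ec64f_mp.PlanePressure

/-- Physical space. -/
abbrev E3 := EuclideanSpace ℝ (Fin 3)

/-- Admissible densities: measurable, nonnegative, integrable, with integrable `5/3`-power. -/
def Adm (ρ : E3 → ℝ) : Prop :=
  Measurable ρ ∧ (∀ x, 0 ≤ ρ x) ∧ Integrable ρ ∧ Integrable (fun x => ρ x ^ (5/3 : ℝ))

/-- The Thomas-Fermi functional `ξ(ρ)` for nuclear charges `z` at positions `R`. -/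
noncomputable def xi {k : ℕ} (z : Fin k → ℝ) (R : Fin k → E3) (ρ : E3 → ℝ) : ℝ :=
  3/5 * (∫ x, ρ x ^ (5/3 : ℝ)) - (∫ x, (∑ j, z j / ‖x - R j‖) * ρ x)
    + 1/2 * (∫ x, ∫ y, ρ x * ρ y / ‖x - y‖)
    + ∑ i, ∑ j ∈ Finset.Ioi i, z i * z j / ‖R i - R j‖

/-- The values of `ξ` on admissible densities of mass `lam`. -/
def energies {k : ℕ} (z : Fin k → ℝ) (R : Fin k → E3) (lam : ℝ) : Set ℝ :=
  {E | ∃ ρ, Adm ρ ∧ ∫ x, ρ x = lam ∧ xi z R ρ = E}

open Classical in
/-- Deformation (ii): separation by `l` from the plane `⟨n, x⟩ = c` with unit normal `n`. -/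
noncomputable def sep (n : E3) (c l : ℝ) (x : E3) : E3 :=
  if c < inner ℝ n x then x + l • n else x - l • n

/-- The Thomas-Fermi energy `e(lam, l)` of the configuration separated by `l` from the plane
`⟨n, x⟩ = c`. -/
noncomputable def e {k : ℕ} (z : Fin k → ℝ) (R : Fin k → E3) (n : E3) (c lam l : ℝ) : ℝ :=
  sInf (energies z (fun i => sep n c l (R i)) lam)

/-- **Q2: the pressure of deformation (ii) is nonnegative.** For all `k`, all charges `z ≥ 0`, all
distinct positions, every plane containing no nucleus and every `lam ≥ 0`: the infimum defining `e`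
is over a nonempty set bounded below, `e(lam, ·)` is nonincreasing on `[0, ∞)`, and
`P = -∂e/∂l ≥ 0` at every `l ≥ 0` at which the derivative (one-sided at `l = 0`) exists. -/
theorem result {k : ℕ} (z : Fin k → ℝ) (hz : ∀ i, 0 ≤ z i) (R : Fin k → E3)
    (hR : Function.Injective R) (n : E3) (hn : ‖n‖ = 1) (c : ℝ) (hc : ∀ i, inner ℝ n (R i) ≠ c)
    (lam : ℝ) (hlam : 0 ≤ lam) :
    (∀ l : ℝ, (energies z (fun i => sep n c l (R i)) lam).Nonempty ∧
      BddBelow (energies z (fun i => sep n c l (R i)) lam)) ∧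
    AntitoneOn (e z R n c lam) (Ici 0) ∧
    ∀ l : ℝ, 0 ≤ l → ∀ d : ℝ, HasDerivWithinAt (e z R n c lam) d (Ici 0) l → 0 ≤ -d := by
  have hanti : AntitoneOn (e z R n c lam) (Ici 0) := by
    intro a ha b _ hab
    exact Pool.Agent.H71R3.TF1.en_sep n hn c z hz R hR hc lam hlam a b ha hab
  refine ⟨fun l => ⟨?_, ?_⟩, hanti, ?_⟩
  · exact Pool.Agent.Helper557.TFP.en_nonempty z (fun i => sep n c l (R i)) lam hlam
  · exact Pool.Agent.Helper557.TFP.en_bdd z hz (fun i => sep n c l (R i)) lam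
  · intro l hl d hd
    have hacc : AccPt l (𝓟 (Ici (0:ℝ))) := by
      rw [accPt_iff_frequently_nhdsNE]
      have h1 : ∃ᶠ y in 𝓝[>] l, y ∈ Ici (0 : ℝ) := by
        apply Filter.Eventually.frequently
        filter_upwards [self_mem_nhdsWithin] with y hy
        have : l < y := hy
        exact (lt_of_le_of_lt hl this).le
      exact h1.filter_mono (nhdsWithin_mono l fun y hy => ne_of_gt hy)
    have := hd.nonpos_of_antitoneOn hacc hanti
    linarith

end Pool.Agent.Results.MP_0ec64f_mp.PlanePressure
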